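import Pool.Agent.Mg.F6b3afb.G732821

section

set_option maxRecDepth 100000

namespace Pool.Agent.MP_6b3afb_co.T92160

theorem r72 : allB rc 10 72 = true := by decide +kernel
theorem u72 : allB uc 10 72 = true := by decide +kernel
theorem r73 : allB rc 10 73 = true := by decide +kernel
theorem u73 : allB uc 10 73 = true := by decide +kernel
theorem r74 : allB rc 10 74 = true := by decide +kernel
theorem u74 : allB uc 10 74 = true := by decide +kernel
theorem r75 : allB rc 10 75 = true := by decide +kernel
theorem u75 : allB uc 10 75 = true := by decide +kernel
theorem r76 : allB rc 10 76 = true := by decide +kernel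
theorem u76 : allB uc 10 76 = true := by decide +kernel
theorem r77 : allB rc 10 77 = true := by decide +kernel
theorem u77 : allB uc 10 77 = true := by decide +kernel

end Pool.Agent.MP_6b3afb_co.T92160

end

section

set_option maxRecDepth 100000

namespace Pool.Agent.MP_6b3afb_co.T92160

theorem r78 : allB rc 10 78 = true := by decide +kernel
theorem u78 : allB uc 10 78 = true := by decide +kernel
theorem r79 : allB rc 10 79 = true := by decide +kernel
theorem u79 : allB uc 10 79 = true := by decide +kernel
theorem r80 : allB rc 10 80 = true := by decide +kernel
theorem u80 : allB uc 10 80 = true := by decide +kernel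
theorem r81 : allB rc 10 81 = true := by decide +kernel
theorem u81 : allB uc 10 81 = true := by decide +kernel
theorem r82 : allB rc 10 82 = true := by decide +kernel
theorem u82 : allB uc 10 82 = true := by decide +kernel
theorem r83 : allB rc 10 83 = true := by decide +kernel
theorem u83 : allB uc 10 83 = true := by decide +kernel

end Pool.Agent.MP_6b3afb_co.T92160

end
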