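import Pool.Agent.Mg.F6b3afb.G732821

section

set_option maxRecDepth 100000

namespace Pool.Agent.MP_6b3afb_co.T92160

theorem r24 : allB rc 10 24 = true := by decide +kernel
theorem u24 : allB uc 10 24 = true := by decide +kernel
theorem r25 : allB rc 10 25 = true := by decide +kernel
theorem u25 : allB uc 10 25 = true := by decide +kernel
theorem r26 : allB rc 10 26 = true := by decide +kernel
theorem u26 : allB uc 10 26 = true := by decide +kernel
theorem r27 : allB rc 10 27 = true := by decide +kernel
theorem u27 : allB uc 10 27 = true := by decide +kernel
theorem r28 : allB rc 10 28 = true := by decide +kernel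
theorem u28 : allB uc 10 28 = true := by decide +kernel
theorem r29 : allB rc 10 29 = true := by decide +kernel
theorem u29 : allB uc 10 29 = true := by decide +kernel

end Pool.Agent.MP_6b3afb_co.T92160

end

section

set_option maxRecDepth 100000

namespace Pool.Agent.MP_6b3afb_co.T92160

theorem r36 : allB rc 10 36 = true := by decide +kernel
theorem u36 : allB uc 10 36 = true := by decide +kernel
theorem r37 : allB rc 10 37 = true := by decide +kernel
theorem u37 : allB uc 10 37 = true := by decide +kernel
theorem r38 : allB rc 10 38 = true := by decide +kernel
theorem u38 : allB uc 10 38 = true := by decide +kernel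
theorem r39 : allB rc 10 39 = true := by decide +kernel
theorem u39 : allB uc 10 39 = true := by decide +kernel
theorem r40 : allB rc 10 40 = true := by decide +kernel
theorem u40 : allB uc 10 40 = true := by decide +kernel
theorem r41 : allB rc 10 41 = true := by decide +kernel
theorem u41 : allB uc 10 41 = true := by decide +kernel

end Pool.Agent.MP_6b3afb_co.T92160

end
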